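import Pool.Agent.V7H5.TI.Main

/-!
# Tate classes on the powers of a variety: independence of the prime, or density zero

Let `X` be a smooth projective variety over a number field (or over any finitely generated field of any
characteristic). For each prime `ℓ` (different from the characteristic) the Galois group acts on the
`ℓ`-adic cohomology of the powers `X ^ (n + 1)` over the algebraic closure; the Tate classes of
codimension `j` are the classes of degree `2 j` which are fixed, up to the Tate twist, by a subgroup of
finite index (`TateClass`). Let `tateRatio n` be the dimension over `ℚ_ℓ` of the space of all Tate classes on
`X ^ (n + 1)` divided by the rank of the group of algebraic cycles modulo numerical equivalence. We say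
that the algebraic classes have density zero among the `ℓ`-adic Tate classes (`DensityZero`) if
`tateRatio` tends to infinity.

It is known (index law) that for each prime `tateRatio` tends to an integer `N_ℓ ≥ 1` or to infinity, and that
the limit is one if and only if the Tate conjecture (all codimensions) and the equality of
homological and numerical equivalence hold for all powers of `X` (`StrongTate`). Nothing was known about the
relation between different primes. We prove:

* There is **one** integer `N₀ ≥ 1` such that for **every** prime `ℓ` the quotient tends to `N₀`, and then
  homological and numerical equivalence agree on all powers of `X`, or the algebraic classes have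
  density zero among the `ℓ`-adic Tate classes.
* For all primes of the first kind the algebras of Tate classes on the powers of `X` are isomorphic,
  after extension of the coefficients to a common field `L ⊇ ℚ_ℓ, ℚ_ℓ'`, by isomorphisms which respect the
  classes of algebraic cycles, products, pull-backs, push-forwards and codimensions (`IsTateIso`; here
  `HL L W Y` is the cohomology with coefficients in `L`, and `tateL` the set of the `L`-linear combinations
  of Tate classes of a codimension). In particular the dimension of the space of Tate classes of
  codimension `l` on `X ^ (n + 1)` is the same.
* If `ℓ` is of the first kind then this dimension is a lower bound for the dimension of the space of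
  `ℓ'`-adic Tate classes for all primes `ℓ'` at which homological and numerical equivalence agree on the
  powers of `X`.
* In particular: if the Tate conjecture and the equality of homological and numerical equivalence hold for all
  powers of `X` at **one** prime then at every other prime they hold for all powers of `X`, or the
  algebraic classes have density zero among the Tate classes.

No standard conjecture, no semisimplicity, no comparison between the theories, and no information about
Frobenius elements is used; the theories `W i` may be arbitrary Weil cohomology theories with coefficient
fields of characteristic zero, and the groups may be different (for example: Galois groups of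
different fields of definition, or the infinite cyclic groups generated by Frobenius elements at
places of good reduction).

Idea of the proof. If the quotient tends to a finite number then all Tate classes on all powers are the
images `x τ` of one Tate class `τ` on one power `Y` under algebraic correspondences `x`, unique up to an
algebraic projector, and `τ ⊗ τ = Δ τ` for an algebraic correspondence `Δ`: so `τ` is a group-like element of
a commutative algebraic coalgebra. This coalgebra exists in every theory, where its group-like
elements are linearly independent and form a finite set, nonempty if the coefficients are
algebraically closed. The Galois group of the other theory permutes them, up to a subgroup of finite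
index of the group; so a subgroup of finite index fixes them, and they are Tate classes of the
other theory. The correspondence `x τ ↦ x τ'` is the isomorphism. It respects the codimension, since the
multiplicative group of the coefficients acts on the finite set of these correspondences.
-/

open CategoryTheory AlgebraicGeometry Filter Topology

open scoped ENNReal

universe u v w

namespace Pool.Agent.Results.MP_938ce2_ag.IndependenceOfEllH5

open Pool.Agent.H914 Pool.Agent.H914.VarClass Pool.Agent.H914.VarClass.Obj
  Pool.Agent.H914.WeilCohomology Pool.Agent.Y129 Pool.Agent.R936 Pool.Agent.V7H5.TI

/-- **The index of the algebraic classes among the Tate classes does not depend on the theory, if it is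
finite.** -/
theorem result {k : Type u} [Field k] {𝒱 : VarClass k} {ops : CycleOps 𝒱} {ι : Type*}
    (W : ι → WeilCohomology.{u, v} ops) (X : 𝒱.Obj) [∀ i, Nontrivial ((W i).H X)]
    (G : ∀ i, GaloisPowers.{u, v, w} (W i) X) :
    ∃ N₀ : ℕ, 1 ≤ N₀ ∧
      (∀ i, (Tendsto (tateRatio (G i)) atTop (𝓝 (N₀ : ℝ≥0∞)) ∧
        ∀ n, HomEqNum (W i) (pw X n)) ∨ DensityZero (G i)) ∧
      (∀ i j, ¬ DensityZero (G i) → ¬ DensityZero (G j) →
        ∃ (L : Type v) (_ : Field L) (_ : Algebra (W i).K L) (_ : Algebra (W j).K L)
          (φ : ∀ n, HL L (W i) (pw X n) → HL L (W j) (pw X n)),
          IsTateIso L (G i) (G j) φ) ∧
      (∀ i j, ¬ DensityZero (G i) → (∀ n, HomEqNum (W j) (pw X n)) → ∀ n l,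
        Set.finrank (W i).K {c | TateClass (G i) n l c} ≤
          Set.finrank (W j).K {c | TateClass (G j) n l c}) ∧
      (∀ i, StrongTate (G i) → ∀ j, StrongTate (G j) ∨ DensityZero (G j)) :=
  tate_uniform W X G

end Pool.Agent.Results.MP_938ce2_ag.IndependenceOfEllH5
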