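import Mathlib
import Pool.Agent.V7H7.MS.Fin4

/-!
# Codimension two on `X ^ 4`, or codimension `g` on `X ^ 2`, decides the Mumford–Tate conjecture

Let `X` be an abelian variety of dimension `g` over a number field and let `ℓ` be a prime number.
Suppose that one of the following conditions holds.

* (Codimension two on `X ^ 4`) Each Tate class in the Künneth component
  `H^1(X) ⊗ H^1(X) ⊗ H^1(X) ⊗ H^1(X) ⊆ H^4(X ^ 4, ℚ_ℓ)(2)` is a `ℚ_ℓ`-linear combination of Hodge
  classes.
* (Codimension `g` on `X ^ 2`) Each Tate class in the Künneth component
  `H^g(X) ⊗ H^g(X) ⊆ H^(2 g)(X ^ 2, ℚ_ℓ)(g)` is a `ℚ_ℓ`-linear combination of Hodge classes.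

Then for all `n` and `m` each Tate class in `H^(2 m)(X ^ n, ℚ_ℓ)(m)` is a `ℚ_ℓ`-linear combination of
Hodge classes. There is no restriction on the type or on the dimension of `X`.

* As Hodge classes on abelian varieties are Tate classes (Deligne), the conclusion is the
  Mumford–Tate conjecture for `X`, and it says that on all powers of `X` the Tate conjecture is
  equivalent to the Hodge conjecture.
* Classes of algebraic cycles are Hodge classes. So the Tate conjecture for cycles of codimension two
  on abelian varieties implies the Mumford–Tate conjecture for all abelian varieties; the case of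
  codimension one is the theorem of Faltings. More precisely the Tate conjecture in codimension two
  for `X ^ 4`, or the Tate conjecture in codimension `g` for `X × X`, implies the Mumford–Tate
  conjecture for `X`.
* In the first condition `X ^ 4` cannot be replaced by `X ^ 3` by arguments of group theory only: for
  `g = 10` the image of `SL₆` in `Sp₂₀` (the third exterior power) is the group of a Hodge–Tate
  structure with weights zero and one, and all its invariants in the spaces `H^4(X ^ 3)` are
  invariants of `Sp₂₀`; its invariant of degree four is a symmetric tensor in
  `H^1 ⊗ H^1 ⊗ H^1 ⊗ H^1`, which appears on `X ^ 4` only.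

The proof. Let `V` be the Tate module over the complex numbers, of dimension `2 g`.

1. Let `N` be the endomorphism of `V = ℂ ⊗ H` which acts as `1` and `-1` on the two parts of the Hodge
   decomposition, up to a sign, or a conjugate of it under an automorphism of the complex numbers.
   Let `L` be the Lie algebra of endomorphisms which is generated by the elements `D = 2 x - 1` for
   the Hodge–Tate elements `x` (which have the eigenvalues zero and one, with multiplicity `g`). By
   the theorem of Faltings `V` is a semisimple `L`-module, and `N` commutes with the commutant `C` of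
   `L`; the traces of `a N` and `a D` are equal for the elements `a` of `C`, if `D` belongs to the
   same conjugate as `N`. By the theorem of Serre and Pink all tensors which are killed by `L` are
   combinations of Tate classes. We show that `N` belongs to `L`.
2. Suppose the first condition. The orthogonal projector from `End V` to the derived algebra of `L`,
   for the trace form, commutes with `L`. It is a tensor in `V ⊗ V ⊗ V ⊗ V` (`V` is self-dual up to a
   twist) which is killed by `L`, and so by the condition it is killed by `N`. Hence `N` normalises
   the derived algebra of `L`.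
3. Suppose the second condition. The endomorphisms of `Λ^g V` which commute with `L` are combinations
   of Tate classes on `X × X` in `H^g(X) ⊗ H^g(X)`, so they commute with `N`. Let `u` be a generator of
   the line `Λ^g (x V)`, where `x` is a Hodge–Tate element. By the double commutant theorem the value
   `N u` of the derivation belongs to the `L`-module generated by `u`. The vector `u` spans the
   component of highest degree for the grading by the eigenvalues of `D = 2 x - 1`; so, up to a
   multiple of `u`, the vector `N u` is `Y u` for an element `Y` of `L` of degree `-1`, and the component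
   of `N` of degree `-1` is equal to `Y`, since a derivation of degree `-1` is determined by its
   value on `u`. The same argument for `-D` shows that the component of degree `1` belongs to `L`.
   Hence `[D, N]` belongs to `L`; as `L` is generated by the elements `D`, `[L, N]` is contained in `L`.
4. So `N = D + k + c` for an element `k` of the derived algebra of `L` and an endomorphism `c` which
   commutes with `L` (the trace form is nondegenerate on the derived algebra), and with `C`; as the
   traces of the elements of `C c` are zero and `c` is semisimple, `c = 0`. So `N` belongs to `L`.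
5. Hence all Tate classes on the powers of `X`, up to the twist invariants of `L`, are invariants of
   all conjugates of `N`, and combinations of rational classes of type `(m, m)`.

The first homology of `X` over `ℚ` is `H`, its tangent space is `T` and the period map is
`per : H → T`; the power `X ^ n` has the homology `H ^ n` and the cohomology group `H^(2 m)(X ^ n)` is
the space of the alternating forms in `2 m` variables on `H ^ n`.
-/

namespace Pool.Agent.Results.MP_938ce2_ag.OneCodimensionH7

open Module Pool.Agent.Y90.St Pool.Agent.V7H7.MS.St TensorProduct

/-- **Codimension two on `X ^ 4`, or codimension `g` on `X ^ 2`, decides the Mumford–Tate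
conjecture for `X`.** Let `X` be an abelian variety over a number field, given by its period map
`per : H → T`, a polarization `E` and the representation `ρ` of the Galois group `Γ` on the Tate
module `ℚ_ℓ ⊗ H`, with the known properties of the Tate module (`IsTateModuleSP`; `χ` is the
cyclotomic character, and `ℂ` is identified with an algebraic closure of `ℚ_ℓ`). If each Tate class
in the Künneth component `H^1 ⊗ H^1 ⊗ H^1 ⊗ H^1` of `H^4(X ^ 4)` is a combination of Hodge classes, or
if each Tate class in the Künneth component `H^g ⊗ H^g` of `H^(2 g)(X ^ 2)`, `g = dim X`, is a
combination of Hodge classes, then each Tate class on each power `X ^ n` in each degree `2 m` is a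
combination of Hodge classes. -/
theorem result {H T : Type} [AddCommGroup H] [Module ℚ H] [AddCommGroup T] [Module ℂ T]
    (per : H →+ T) (hX : IsAV per) (E : H → H → ℚ) (hE : IsPolarization per E) (ℓ : ℕ)
    [Fact ℓ.Prime] [Algebra ℚ_[ℓ] ℂ] [Algebra.IsAlgebraic ℚ_[ℓ] ℂ] {Γ : Type} [Group Γ]
    (ρ : Representation ℚ_[ℓ] Γ (ℚ_[ℓ] ⊗[ℚ] H)) (χ : Γ →* ℚ_[ℓ])
    (hρ : IsTateModuleSP per E ρ χ)
    (hyp : (∀ φ : (Fin 4 → ℚ_[ℓ] ⊗[ℚ] H) [⋀^Fin 2 × Fin 2]→ₗ[ℚ_[ℓ]] ℚ_[ℓ],
        IsTateClass ρ χ φ → IsOneEach φ → IsHodgeSum per φ) ∨
      ∀ φ : (Fin 2 → ℚ_[ℓ] ⊗[ℚ] H) [⋀^Fin (finrank ℂ T) × Fin 2]→ₗ[ℚ_[ℓ]] ℚ_[ℓ],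
        IsTateClass ρ χ φ → IsMiddle φ → IsHodgeSum per φ)
    (n m : ℕ) (φ : (Fin n → ℚ_[ℓ] ⊗[ℚ] H) [⋀^Fin m × Fin 2]→ₗ[ℚ_[ℓ]] ℚ_[ℓ])
    (hφ : IsTateClass ρ χ φ) : IsHodgeSum per φ :=
  Pool.Agent.V7H7.MS.one_power hX hE hρ hyp φ hφ

end Pool.Agent.Results.MP_938ce2_ag.OneCodimensionH7
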