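import Pool.Agent.V7H82.TG.Main

/-!
# The Tate conjecture for all powers of abelian varieties with real multiplication, from one
# Frobenius element with a doubly homogeneous Galois action over the field of real multiplication

Let `A` be an abelian variety over a number field, of any dimension, all of whose endomorphisms over
the algebraic closure are fixed by the Rosati involution of a polarization (`RosatiTrivial`): that is,
`A` is isogenous to a product of simple abelian varieties of type I in the classification of Albert
(the endomorphism algebra is a totally real field) without isogenies between them. Suppose that for
ONE place of good reduction, with residue field of `q = p ^ m` elements, the characteristic polynomial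
of the Frobenius element is the product of the minimal polynomials of Weil numbers `π i`, which
generate CM fields `K i`. Let `E i` be a real subfield of `K i` which acts on `A`: every element of
`E i` is of the form `Q (π i)` for a polynomial `Q` with rational coefficients such that `Q` of
the Frobenius element is an endomorphism of `A` over the algebraic closure (`IsEndo`). The field
`E i = ℚ` is always allowed; if `A` is simple and the Frobenius polynomial is irreducible,
`E = End(A) ⊗ ℚ` is allowed, since then it is contained in `End(A mod v) ⊗ ℚ = ℚ(π)`.

Two complex embeddings `x`, `y` of `K i` are *flipped* if some automorphism of `ℂ` fixes `x` and
conjugates `y`, or moves `x` to `y` and `y` to the conjugate of `x`. The *classes* are those of the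
equivalence relation generated by agreeing on `E i` and not being flipped (`Linked`); each class
is a union of pairs of conjugate embeddings which all agree on `E i`. Suppose that for all `i`

* all positive powers of `π i` generate `K i`;
* each class consists of a prime number of pairs, or any two pairs of the class can be moved to any two
  others by automorphisms of `ℂ` (`HomClass`) and the number of pairs is not `10`, `16` or `28`; for
  instance any two pairs of embeddings over an embedding of `E i` can be moved to any two others over
  this embedding, and `[K i : E i]` is not `20`, `32` or `56`;
* `q ^ 2` is not the norm of `π i` to a subfield `F` of `K i` which contains `E i`, is not real and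
  satisfies `[K i : F] = 4`;
* for `j ≠ i`, an embedding of `K i` and one of `K j`, some automorphism of `ℂ` fixes the first one and
  conjugates the second one (`PairwiseFlipped`; no condition for one field).

Then for all powers of `A` and in all codimensions all Tate classes are linear combinations of
products of Tate classes of degree two, which are classes of divisors by the theorem of Faltings. So
the Tate conjecture, and also the Hodge conjecture and the conjecture of Mumford and Tate, hold for
all powers of `A`.

There is no condition on the slopes (the place may be ordinary or not), none on the degree
`[E i : ℚ]` of the field of real multiplication nor on the parity of the relative dimension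
`[K i : E i] / 2`, and none on the relations between embeddings which do not agree on `E i`: the rank
of the Frobenius torus may be smaller than that of the group of symplectic similitudes commuting with
`E i`, and the reduction of `A` may have Tate classes on its powers which are not generated
by divisors (for instance Weil classes, if `K i` contains an imaginary quadratic field). The norm
condition and the exceptions `10`, `16`, `28` correspond to the minuscule symplectic representations
of `SL₂ × SL₂ × SL₂` (dimension `8`, Mumford's example), `SL₆` (`∧³`, dimension `20`), `Spin₁₂`
(half-spin, dimension `32`) and `E₇` (dimension `56`), whose weights have relations of length four.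

Idea. The Galois translates of the slopes of `π` give a symmetric kernel on the embeddings, which is
invariant, odd under conjugation, zero on flipped embeddings and smaller than its diagonal value. A
product of four conjugates equal to `q ^ 2`, at embeddings which agree on `E`, in different pairs,
gives four rows of the kernel with sum zero. It follows that the four embeddings are in one class.
If the pairs of the class are permuted doubly homogeneously, the kernel has constant absolute value
`α` outside of the pairs, the diagonal value is `3 α`, and its square is proportional to
it: the lines of the pairs are equiangular lines with angle `arccos (1 / 3)` in a space of dimension
`9 n / (n + 8)` for `n` pairs, so that `n` is `4`, `10`, `16`, `28` or `64`, and `64` is excluded by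
the bound of Gerzon. For `n = 4` the four embeddings are a block, which gives the subfield `F`. If `n`
is a prime number, an element of this order makes the absolute value of the relation constant,
which is impossible. So there are no nontrivial relations of length four in the blocks of embeddings
that agree on `E`. This, with the trivial Rosati involution, suffices for the Lie algebra of the
endomorphisms annihilating all Tate classes to be the whole Lie algebra of the centralizer of the
endomorphisms of `A` in the symplectic Lie algebra (`Pool.Agent.V7H82.TG.generated_of_blocks`).
-/

namespace Pool.Agent.Results.MP_938ce2_ag.RealMultiplicationH82

open NumberField Module Pool.Agent.H204R3.GP Pool.Agent.W527.TateRing Pool.Agent.TH776.FM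
  Pool.Agent.TH776.FL Pool.Agent.V7H82.TG

/-- The Tate conjecture for all powers of an abelian variety with trivial Rosati involution, from one
Frobenius element whose eigenvalues over the fields of endomorphisms `E i` form doubly homogeneous
classes, or classes of a prime number of pairs. -/
theorem result (p : ℕ) [Fact p.Prime] (m : ℕ) (ℓ : ℕ) [Fact ℓ.Prime]
    -- Weil numbers, and subfields of the CM fields generated by them
    {ι : Type} [Fintype ι] (X : ι → WeilNumber p m) (E : ∀ i, IntermediateField ℚ (X i).K)
    (hX : ∀ i, IsAdmissible (p ^ m) (X i).π (E i)) (hX' : PairwiseFlipped X)
    -- the Tate module with trivial Rosati involution
    {V : Type} [AddCommGroup V] [Module ℚ_[ℓ] V] [FiniteDimensional ℚ_[ℓ] V]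
    {Γ : Type} [Group Γ] (ρ : Representation ℚ_[ℓ] Γ V) (χ : Γ →* ℚ_[ℓ])
    (ω : V →ₗ[ℚ_[ℓ]] V →ₗ[ℚ_[ℓ]] ℚ_[ℓ]) (hA : IsTateModule ρ χ ω) (hR : RosatiTrivial ρ ω)
    -- the Frobenius element, and the action of the fields `E i`
    (γ : Γ) (hγ : IsFrobenius ρ χ X E γ) :
    TateGeneratedInDegreeTwo ρ χ :=
  tate_main hX hX' hA hR hγ.cyclotomic hγ.charpoly hγ.endo

end Pool.Agent.Results.MP_938ce2_ag.RealMultiplicationH82
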