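import Mathlib
import Pool.Agent.V7H7.TP.Bri

/-!
# The square of an abelian variety decides the Tate and Hodge conjectures for all its powers

Let `X` be an abelian variety of dimension `g` over a number field, and let `ℓ` be a prime number. Let

* `N = 2` if no simple factor of `X` is of type IV,
* `N = max(2, 2 g)` if the Hodge group of `X` is semisimple,
* `N = max(4, 2 g ^ (2 g))` in general.

If the Tate conjecture at the prime `ℓ` holds for the one power `X ^ N` (all Tate classes on `X ^ N` are
`ℚ_ℓ`-linear combinations of classes of algebraic cycles), then

* for all `n` all Tate classes on `X ^ n` are `ℚ_ℓ`-linear combinations of Hodge classes (this is the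
  Mumford–Tate conjecture for `X`),
* the Hodge conjecture holds for all powers `X ^ n`,
* the Tate conjecture at `ℓ` holds for all powers `X ^ n`.

So for abelian varieties without factors of type IV the Tate conjecture for `X × X` at one prime
implies the Tate conjecture and the Hodge conjecture for all powers of `X` (and so for all abelian
varieties whose simple factors occur in `X`, since their motives are direct summands of motives of
powers of `X`). It is well known that the Tate conjecture for *all* powers of `X` implies the
Mumford–Tate conjecture for `X` and the Hodge conjecture for these powers. New is that one power is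
enough, in particular the square, with no assumption on the type of `X`, on its dimension or on the
Galois representation.

The proof.

1. Let `V = ℂ ⊗ H` be the Tate module over the complex numbers, let `L` be the Lie algebra which is
   generated by the Hodge–Tate elements, normalised as `D = 2 x - 1`, and let `N` be (a conjugate
   of) the element with the eigenvalues `1` and `-1` on the two parts of the Hodge decomposition. The
   Tate classes in `H^g(X) ⊗ H^g(X)` on `X × X` are the endomorphisms of `Λ^g V` which commute with
   `L` (Serre, Pink). They are algebraic by assumption (the Tate conjecture for `X ^ N` contains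
   the one for `X × X`), and so they are combinations of Hodge classes and commute with `N`. Let `u`
   be a generator of the line `Λ^g (x V)`. By the double commutant theorem `N u = Y u + c u` with an
   element `Y` of `L` of degree `-1` for the grading by `D`, so the component of `N` of degree `-1`
   is in `L`; the same for degree `1`. Hence `[D, N]` is in `L` for all `D`, and by the theorem of
   Faltings `N = D + k + c` with `k` in the derived algebra of `L` and `c` in the commutant of `L`,
   and a trace argument shows `c = 0`. So `N` belongs to `L`, and all Tate classes on all powers are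
   combinations of Hodge classes (the files `V7H7/MS`).
2. The classes on `X ^ n` are the alternating forms on `H ^ n`, where `H` is the first homology of
   `X`: the cohomology of `X ^ n` is generated by the pull-backs of the classes of degree one of `X`,
   and the products of elements of a basis are linearly independent by Poincaré duality. Under this
   dictionary the Galois action is the one given by the Tate module, and the Hodge classes are the
   rational forms which are invariant under the complex numbers of absolute value one, by the Hodge
   decomposition (the files `V7H7/TP`).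
3. The Hodge classes on `X ^ N` are Tate classes (Deligne), so they are combinations with
   coefficients in `ℚ_ℓ` of classes of algebraic cycles, and by linear algebra combinations with
   rational coefficients: the Hodge conjecture holds for `X ^ N`.
4. The Hodge classes on all powers of `X` are generated by the Hodge classes on `X ^ N` under cup
   products, pull-backs and push-forwards (the theorem on the square `SquareTheorem` of the problem
   `MP_802513_ag`), so the Hodge conjecture holds for all powers, and with step 1 the Tate conjecture.

The varieties are the smooth projective ones over an algebraic closure of the number field in `ℂ`,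
`T` is the theory `Y ↦ H(Y(ℂ), ℚ)` with its Hodge structure, and the `ℓ`-adic cohomology of `Y` is
`HL T.W ℚ_[ℓ] Y = ℚ_ℓ ⊗ H(Y(ℂ), ℚ)` by the comparison theorem; `pw X n` is `X ^ (n + 1)`.
-/

open CategoryTheory AlgebraicGeometry TensorProduct

universe u

namespace Pool.Agent.Results.MP_938ce2_ag.SquareDecidesTateH7

open Pool.Agent.H914 Pool.Agent.H914.VarClass Pool.Agent.H914.VarClass.Obj
  Pool.Agent.H914.WeilCohomology Pool.Agent.Y121.AHS
open Pool.Agent.N996.FP (GenDim CentreSelfAdjoint CentreEqualTraces)
open Pool.Agent.N996.BP (Bil)
open Pool.Agent.Y133.Half (pw)
open Pool.Agent.V7H7.TP.D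

variable {k : Type u} [Field k] {𝒱 : VarClass k} {ops : CycleOps 𝒱}

/-- **The Tate conjecture for one power of an abelian variety, at one prime, implies the Tate
conjecture and the Hodge conjecture for all powers.** The data:

* the Hodge theory `T` (singular cohomology with rational coefficients), the abelian variety `X` with
  a polarisation `ψ` of the Hodge structure of its cohomology (`hψ`, `hX`);
* its first homology `H`, its tangent space `S`, the period map `per : H → S`, a Riemann form `E`, and
  the duality `f` between `H` and the classes of degree one (`hE`, `hH`);
* the Galois group `Γ`, the cyclotomic character `χ`, the Tate module `ℚ_ℓ ⊗ H` with the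
  representation `ρ` and its known properties (`hρ`: Weil pairing, Faltings, Hodge–Tate
  decomposition, Serre, Pink), and the action `g` of `Γ` on the `ℓ`-adic cohomology of the powers of
  `X` (`hg`, with the theorem of Deligne that Hodge classes on abelian varieties are Tate classes),
  which is dual to `ρ` on the classes of degree one of `X` (`hd`).

If the Tate conjecture holds for `X ^ N` (`hT`), with `N` as in `hN`, then for all `n` all Tate classes
on `X ^ (n + 1)` are combinations of Hodge classes, and the Hodge conjecture and the Tate conjecture
hold for `X ^ (n + 1)`. -/
theorem result (T : HodgeTheory ops) (X : 𝒱.Obj) (ψ : Bil T.W.K (T.W.H X))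
    (hψ : IsPolarisation (IsType T.pq) T.rat X.dim ψ) (hX : GenDim (T.W.gr X 1) (2 * X.dim))
    {H S : Type} [AddCommGroup H] [Module ℚ H] [AddCommGroup S] [Module ℂ S]
    (per : H →+ S) (E : H → H → ℚ) (hE : IsAbelian per E)
    (f : H → T.W.H X → ℚ) (hH : IsFirstHomology (T.W.gr X) (IsType T.pq 1 0) per f)
    (ℓ : ℕ) [Fact ℓ.Prime] [Algebra ℚ_[ℓ] ℂ] [Algebra.IsAlgebraic ℚ_[ℓ] ℂ] [Algebra T.W.K ℚ_[ℓ]]
    {Γ : Type} [Group Γ] (ρ : Representation ℚ_[ℓ] Γ (ℚ_[ℓ] ⊗[ℚ] H)) (χ : Γ →* ℚ_[ℓ])
    (hρ : IsTateModule per E (fun h => (1 : ℚ_[ℓ]) ⊗ₜ[ℚ] h) ρ χ)
    (g : ∀ n, Γ → HL T.W ℚ_[ℓ] (pw X n) → HL T.W ℚ_[ℓ] (pw X n))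
    (hg : IsAction (A := fun n => T.W.H (pw X n)) (fun n => T.W.gr (pw X n))
      (fun n => T.W.map (fst (pw X n) X)) (fun n => T.W.map (snd (pw X n) X))
      (fun n => IsHodge T (pw X n)) g χ)
    (hd : IsDual (T.W.gr X) f (fun h => (1 : ℚ_[ℓ]) ⊗ₜ[ℚ] h) ρ (g 0)) (N : ℕ)
    (hN : (CentreSelfAdjoint (T.W.gr X 1) (T.pq X) ψ ∧ N = 2) ∨
      (CentreEqualTraces (T.W.gr X 1) (T.pq X) ∧ N = max 2 (2 * X.dim)) ∨
        N = max 4 (2 * X.dim ^ (2 * X.dim)))
    (hT : TateIn (T.W.gr _) (g (N - 1)) χ (IsAlg T _)) (n : ℕ) :
    TateIn (T.W.gr _) (g n) χ (IsHodge T _) ∧ HodgeConj T (pw X n) ∧
      TateIn (T.W.gr _) (g n) χ (IsAlg T _) :=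
  Pool.Agent.V7H7.TP.square_decides_final hψ hX hE hH hρ hg hd hN hT n

end Pool.Agent.Results.MP_938ce2_ag.SquareDecidesTateH7
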